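import Pool.Agent.MP_a4a062_nt.K60.TopE

set_option autoImplicit false

namespace Pool.Agent.Results.MP_a4a062_nt.ChowlaAllFields

open Polynomial

/-- Chowla's conjecture in progressions over `k[X]` for every finite field `k`, in every large
degree, uniformly in the shifts; all factors but one may be arbitrary multiplicative functions
bounded by one. -/
theorem result (k : Type) [Field k] [Finite k] (K : ℕ) (M : k[X]) (hM : M ≠ 0) (ε : ℝ)
    (hε : 0 < ε) :
    ∃ n₀ : ℕ, ∀ n : ℕ, n₀ ≤ n → ∀ (a h₀ : k[X]) (h : Fin K → k[X]) (G : Fin K → k[X] → ℂ),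
      h₀.degree < n → (∀ i, (h i).degree < n) → (∀ i, h i ≠ h₀) →
      (∀ i u, u.Monic → ‖G i u‖ ≤ 1) →
      (∀ i u v, u.Monic → v.Monic → IsCoprime u v → G i (u * v) = G i u * G i v) →
      ‖∑ᶠ f ∈ {f : k[X] | f.Monic ∧ f.natDegree = n ∧ M ∣ f - a},
        (-1 : ℂ) ^ (UniqueFactorizationMonoid.factors (f + h₀)).card * ∏ i, G i (f + h i)‖
      ≤ ε * (Nat.card k : ℝ) ^ n := by
  have := Fintype.ofFinite k
  exact Pool.Agent.K60.fine_row k (Pool.Agent.K60.ell_all k) K M hM ε hε

end Pool.Agent.Results.MP_a4a062_nt.ChowlaAllFields
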