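import Pool.Agent.MP_a4a062_nt.Z60.Fin

set_option autoImplicit false

/-- A Legendre symbol of large prime conductor `P` against any number of bounded multiplicative
functions and a periodic twist, at every scale `N ≥ √(C P)`. -/
theorem Pool.Agent.Results.MP_a4a062_nt.LegendreTwist.result (K M h₀ : ℕ) (h : Fin K → ℕ) (ε : ℝ)
    (hh : ∀ i, h i ≠ h₀) (hM : 0 < M) (hε : 0 < ε) :
    ∃ P₀ C : ℕ, ∀ (P : ℕ) [Fact P.Prime], P₀ ≤ P → ∀ N : ℕ, C * P ≤ N ^ 2 →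
      ∀ (ψ : ℕ → ℂ) (g : Fin K → ℕ → ℂ), (∀ n, ‖ψ n‖ ≤ 1) → (∀ n, ψ (n + M) = ψ n) →
      (∀ i n, ‖g i n‖ ≤ 1) →
      (∀ i u v, u ≠ 0 → v ≠ 0 → Nat.Coprime u v → g i (u * v) = g i u * g i v) →
      ‖∑ n ∈ Finset.Icc 1 N,
        ψ n * (legendreSym P ((n + h₀ : ℕ) : ℤ) : ℂ) * ∏ i, g i (n + h i)‖ ≤ ε * N :=
  Pool.Agent.Z60.top_all K M h₀ h ε hh hM hε
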