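import Pool.Agent.MP_a4a062_nt.Q58.A
import Pool.Agent.MP_a4a062_nt.Q58.B

set_option autoImplicit false

namespace Pool.Agent.Results.MP_a4a062_nt.PolynomialValues

open Polynomial Pool.Agent.MP_a4a062_nt.Q58

/-- Cancellation of the Liouville function at the values of `a Q(Y) ^ 2 + b Y + c` over `k[X]`,
`k` finite of characteristic two, in progressions. -/
theorem result (k : Type*) [Field k] [Finite k] [CharP k 2] (Q : Polynomial k[X])
    (hQ : 0 < Q.natDegree) (a b M : k[X]) (ha : a ≠ 0) (hb : b ≠ 0) (hM : M ≠ 0) (ε : ℝ)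
    (hε : 0 < ε) :
    ∃ n₀ : ℕ, ∀ n : ℕ, n₀ ≤ n → ∀ r c : k[X], c.natDegree ≤ n + b.natDegree →
      |∑ᶠ f ∈ {f : k[X] | f.Monic ∧ f.natDegree = n ∧ M ∣ f - r},
        (-1 : ℝ) ^ (UniqueFactorizationMonoid.factors (a * Q.eval f ^ 2 + b * f + c)).card|
      ≤ ε * (Nat.card k : ℝ) ^ n := by
  have := Fintype.ofFinite k
  exact res3_row k (cor2_row (lined2_row (line2_row pth_row (inf2_row berl_row) loc4_row vdc3_row
    kapg_row base3_row)) (good_row split_row boxm_row huge_row) dom_row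
    (bad2_row dom_row boxm_row root2_row) shf_row deg_row) deg_row Q hQ a b M ha hb hM ε hε

end Pool.Agent.Results.MP_a4a062_nt.PolynomialValues
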