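import Mathlib

set_option autoImplicit false

namespace Pool.Agent.Results.MP_a4a062_nt.TwistBound

open Finset

/-- The Liouville function as a real number. -/
noncomputable def L (n : ℕ) : ℝ := (-1 : ℝ) ^ (ArithmeticFunction.cardFactors n)

lemma L_sq (n : ℕ) : L n * L n = 1 := by
  unfold L
  rw [← mul_pow]; simp

lemma L_two_mul (n : ℕ) (hn : n ≠ 0) : L (2 * n) = - L n := by
  unfold L
  rw [ArithmeticFunction.cardFactors_mul two_ne_zero hn,
    ArithmeticFunction.cardFactors_apply_prime Nat.prime_two, pow_add]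
  ring

lemma prod_symm {k : ℕ} (F : Fin k → Fin k → ℝ) (hs : ∀ i j, F i j = F j i)
    (h2 : ∀ i j, F i j * F i j = 1) : ∏ i, ∏ j, F i j = ∏ i, F i i := by
  induction k with
  | zero => simp
  | succ k ih =>
    have ih' := ih (fun i j => F i.succ j.succ) (fun i j => hs _ _) (fun i j => h2 _ _)
    rw [Fin.prod_univ_succ, Fin.prod_univ_succ (fun i => F i i), Fin.prod_univ_succ]
    simp_rw [Fin.prod_univ_succ]
    rw [Finset.prod_mul_distrib, ih']
    have : (∏ j : Fin k, F 0 j.succ) * ∏ j : Fin k, F j.succ 0 = 1 := by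
      rw [← Finset.prod_mul_distrib]
      exact Finset.prod_eq_one fun j _ => by rw [hs j.succ 0]; exact h2 _ _
    calc _ = F 0 0 * ((∏ j : Fin k, F 0 j.succ) * ∏ j : Fin k, F j.succ 0) *
          ∏ i : Fin k, F i.succ i.succ := by ring
      _ = _ := by rw [this]; ring

variable {k : ℕ} (h : Fin k → ℕ)

/-- The twisted product. -/
noncomputable def Y (n : ℕ) : ℝ := (-1 : ℝ) ^ (n - 1) * ∏ i, L (n + h i)

lemma Y_sq (n : ℕ) : Y h n * Y h n = 1 := by
  unfold Y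
  have h1 : (∏ i, L (n + h i)) * ∏ i, L (n + h i) = 1 := by
    rw [← Finset.prod_mul_distrib]
    exact Finset.prod_eq_one fun j _ => L_sq _
  have h2 : (-1 : ℝ) ^ (n - 1) * (-1 : ℝ) ^ (n - 1) = 1 := by rw [← mul_pow]; simp
  calc _ = ((-1 : ℝ) ^ (n - 1) * (-1 : ℝ) ^ (n - 1)) *
        ((∏ i, L (n + h i)) * ∏ i, L (n + h i)) := by ring
    _ = 1 := by rw [h1, h2]; ring

lemma Y_cases (n : ℕ) : Y h n = 1 ∨ Y h n = -1 := mul_self_eq_one_iff.mp (Y_sq h n)

/-- The Frobenius identity. -/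
lemma identity (n : ℕ) (hn : 1 ≤ n) :
    Y h n * ∏ i, Y h (2 * n + h i) = (-1 : ℝ) ^ (n - 1 + ∑ i, h i) := by
  unfold Y
  rw [Finset.prod_mul_distrib, prod_symm (fun i j => L (2 * n + h i + h j))
    (fun i j => by congr 1; ring) (fun i j => L_sq _)]
  have h1 : (∏ i, L (n + h i)) * ∏ i, L (2 * n + h i + h i) = ∏ _i : Fin k, (-1 : ℝ) := by
    rw [← Finset.prod_mul_distrib]
    refine Finset.prod_congr rfl fun i _ => ?_
    rw [show 2 * n + h i + h i = 2 * (n + h i) by ring, L_two_mul _ (by omega)]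
    have := L_sq (n + h i)
    linarith
  have h2 : (∏ i, (-1 : ℝ) ^ (2 * n + h i - 1)) * ∏ _i : Fin k, (-1 : ℝ) = (-1 : ℝ) ^ ∑ i, h i := by
    rw [← Finset.prod_mul_distrib, ← Finset.prod_pow_eq_pow_sum]
    refine Finset.prod_congr rfl fun i _ => ?_
    rw [← pow_succ, show 2 * n + h i - 1 + 1 = 2 * n + h i by omega, pow_add, pow_mul]
    simp
  calc _ = (-1 : ℝ) ^ (n - 1) * ((∏ i, (-1 : ℝ) ^ (2 * n + h i - 1)) *
        ((∏ i, L (n + h i)) * ∏ i, L (2 * n + h i + h i))) := by ring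
    _ = _ := by rw [h1, h2, pow_add]

lemma pointwise (s : ℝ) (hs : s = 1 ∨ s = -1) : ∃ r : ℕ, ∀ j : ℕ, 1 ≤ j →
    1 ≤ (1 - s * Y h (2 * j + r)) / 2 + ∑ i, (1 - s * Y h (4 * j + (2 * r + h i))) / 2 := by
  have hb : ∀ n, 0 ≤ (1 - s * Y h n) / 2 ∧ ((1 - s * Y h n) / 2 < 1 → Y h n = s) := by
    intro n
    rcases hs with rfl | rfl <;> rcases Y_cases h n with e | e <;> rw [e] <;> norm_num
  have hr : ∃ r : ℕ, (-1 : ℝ) ^ (r + 1 + ∑ i, h i) ≠ s ^ (k + 1) := by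
    by_contra hc
    push Not at hc
    have h0 := hc 0
    have h1 := hc 1
    rw [← h0, show 1 + 1 + ∑ i, h i = (0 + 1 + ∑ i, h i) + 1 by ring, pow_succ] at h1
    have : (-1 : ℝ) ^ (0 + 1 + ∑ i, h i) ≠ 0 := pow_ne_zero _ (by norm_num)
    apply this
    linarith
  obtain ⟨r, hr⟩ := hr
  refine ⟨r, fun j hj => ?_⟩
  by_contra hc
  push Not at hc
  have hsum : 0 ≤ ∑ i, (1 - s * Y h (4 * j + (2 * r + h i))) / 2 :=
    Finset.sum_nonneg fun i _ => (hb _).1
  have e0 : Y h (2 * j + r) = s := (hb _).2 (by linarith)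
  have e1 : ∀ i, Y h (2 * (2 * j + r) + h i) = s := by
    intro i
    rw [show 2 * (2 * j + r) + h i = 4 * j + (2 * r + h i) by ring]
    refine (hb _).2 ?_
    have := Finset.single_le_sum (f := fun i => (1 - s * Y h (4 * j + (2 * r + h i))) / 2)
      (fun i _ => (hb _).1) (Finset.mem_univ i)
    have := (hb (2 * j + r)).1
    linarith
  have hid := identity h (2 * j + r) (by omega)
  rw [e0, Finset.prod_congr rfl fun i _ => e1 i, Finset.prod_const, Finset.card_univ,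
    Fintype.card_fin, ← pow_succ',
    show 2 * j + r - 1 + ∑ i, h i = 2 * (j - 1) + (r + 1 + ∑ i, h i) by omega,
    pow_add (-1 : ℝ), pow_mul] at hid
  apply hr
  rw [hid]; simp

lemma sum_inv_sq (N : ℕ) : ∑ j ∈ Icc 1 N, ((j : ℝ) ^ 2)⁻¹ ≤ 2 := by
  have := sum_Ioo_inv_sq_le (α := ℝ) 0 (N + 1)
  rw [show Ioo 0 (N + 1) = Icc 1 N by ext x; simp; omega] at this
  simpa using this

lemma transfer (b : ℕ → ℝ) (hb : ∀ n, 0 ≤ b n ∧ b n ≤ 1) (a c N : ℕ) (ha : 1 ≤ a) (hN : 1 ≤ N) :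
    ∑ j ∈ Icc 1 N, b (a * j + c) / j ≤
      a * ∑ n ∈ Icc 1 N, (if n % a = c % a then b n / n else 0) + (2 * c + a * (a + c)) := by
  have ha' : (1 : ℝ) ≤ a := by exact_mod_cast ha
  have hN' : (1 : ℝ) ≤ N := by exact_mod_cast hN
  have hc' : (0 : ℝ) ≤ c := Nat.cast_nonneg _
  set g : ℕ → ℝ := fun n => if n % a = c % a then b n / n else 0 with hg
  have hg0 : ∀ n, 0 ≤ g n := fun n => by
    simp only [hg]; split_ifs
    · exact div_nonneg (hb n).1 (Nat.cast_nonneg _)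
    · exact le_rfl
  have h1 : ∀ j ∈ Icc 1 N, b (a * j + c) / j ≤ a * g (a * j + c) + c * ((j : ℝ) ^ 2)⁻¹ := by
    intro j hj
    have hj' : (1 : ℝ) ≤ j := by exact_mod_cast (Finset.mem_Icc.mp hj).1
    have hm : (a * j + c) % a = c % a := by simp
    simp only [hg, if_pos hm]
    obtain ⟨b0, b1⟩ := hb (a * j + c)
    push_cast
    have hp : (0 : ℝ) < a * j + c := by nlinarith
    have e : b (a * j + c) / j = a * (b (a * j + c) / (a * j + c)) +
        c * (b (a * j + c) / (j * (a * j + c))) := by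
      field_simp
    rw [e]
    gcongr
    rw [div_le_iff₀ (by positivity), inv_mul_eq_div, le_div_iff₀ (by positivity)]
    nlinarith [mul_nonneg (sub_nonneg.mpr b1) (sq_nonneg (j : ℝ)),
      mul_nonneg (sub_nonneg.mpr ha') (sq_nonneg (j : ℝ)), mul_nonneg hc' (by linarith : (0 : ℝ) ≤ j)]
  have h2 : ∑ j ∈ Icc 1 N, g (a * j + c) ≤ ∑ n ∈ Icc 1 (a * N + c), g n := by
    rw [← Finset.sum_image (f := g) (g := fun j => a * j + c) (s := Icc 1 N)
      (fun x _ y _ hxy => Nat.eq_of_mul_eq_mul_left ha (by simpa using hxy))]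
    refine Finset.sum_le_sum_of_subset_of_nonneg ?_ fun n _ _ => hg0 n
    intro n hn
    obtain ⟨j, hj, rfl⟩ := Finset.mem_image.mp hn
    obtain ⟨j1, j2⟩ := Finset.mem_Icc.mp hj
    exact Finset.mem_Icc.mpr ⟨by nlinarith, by nlinarith⟩
  have h3 : ∑ n ∈ Icc 1 (a * N + c), g n ≤ ∑ n ∈ Icc 1 N, g n + (a + c) := by
    have hle : N ≤ a * N + c := by nlinarith
    rw [show Icc 1 (a * N + c) = Ioc 0 (a * N + c) from rfl, show Icc 1 N = Ioc 0 N from rfl,
      ← Finset.sum_Ioc_consecutive g (Nat.zero_le N) hle]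
    gcongr
    have : ∀ n ∈ Ioc N (a * N + c), g n ≤ 1 / N := by
      intro n hn
      have hn' : (N : ℝ) ≤ n := by exact_mod_cast (Finset.mem_Ioc.mp hn).1.le
      simp only [hg]; split_ifs
      · exact div_le_div₀ zero_le_one (hb n).2 (by linarith) hn'
      · positivity
    refine (Finset.sum_le_card_nsmul _ _ _ this).trans ?_
    rw [Nat.card_Ioc, nsmul_eq_mul, Nat.cast_sub hle, mul_one_div, div_le_iff₀ (by linarith)]
    push_cast
    nlinarith [mul_nonneg hc' (sub_nonneg.mpr hN')]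
  refine (Finset.sum_le_sum h1).trans ?_
  rw [Finset.sum_add_distrib, ← Finset.mul_sum, ← Finset.mul_sum]
  have := sum_inv_sq N
  nlinarith [mul_le_mul_of_nonneg_left (h2.trans h3) (by linarith : (0 : ℝ) ≤ a),
    mul_le_mul_of_nonneg_left this hc']

lemma harm (N : ℕ) (hN : 1 ≤ N) : Real.log N ≤ ∑ j ∈ Icc 1 N, (1 : ℝ) / j ∧
    ∑ j ∈ Icc 1 N, (1 : ℝ) / j ≤ 1 + Real.log N := by
  have e : ((harmonic N : ℚ) : ℝ) = ∑ j ∈ Icc 1 N, (1 : ℝ) / j := by
    rw [harmonic_eq_sum_Icc]; push_cast; simp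
  have h1 := log_add_one_le_harmonic N
  have h2 := harmonic_le_one_add_log N
  rw [e] at h1 h2
  refine ⟨le_trans (Real.log_le_log (by exact_mod_cast hN) ?_) h1, h2⟩
  push_cast; linarith

lemma main (m : ℕ) (hm : ∀ j, (univ.filter fun i => h i % 4 = j).card ≤ m) (s : ℝ)
    (hs : s = 1 ∨ s = -1) : ∃ C : ℝ, ∀ X : ℕ, 1 ≤ X →
      s * ∑ n ∈ Icc 1 X, Y h n / n ≤ (1 - 1 / (2 * m + 1)) * Real.log X + C := by
  obtain ⟨r, hr⟩ := pointwise h s hs
  set b : ℕ → ℝ := fun n => (1 - s * Y h n) / 2 with hbdef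
  have hb : ∀ n, 0 ≤ b n ∧ b n ≤ 1 := by
    intro n
    simp only [hbdef]
    rcases hs with rfl | rfl <;> rcases Y_cases h n with e | e <;> rw [e] <;> norm_num
  set K : ℝ := (2 * r + (2 : ℕ) * ((2 : ℕ) + r)) +
    ∑ i, (2 * ((2 * r + h i : ℕ) : ℝ) + (4 : ℕ) * ((4 : ℕ) + ((2 * r + h i : ℕ) : ℝ))) with hK
  refine ⟨1 + K / (2 * m + 1), fun X hX => ?_⟩
  set B : ℝ := ∑ n ∈ Icc 1 X, b n / n with hB
  obtain ⟨l1, l2⟩ := harm X hX
  have hbn : ∀ n : ℕ, 0 ≤ b n / n := fun n => div_nonneg (hb n).1 (Nat.cast_nonneg _)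
  have e1 : s * ∑ n ∈ Icc 1 X, Y h n / n = ∑ j ∈ Icc 1 X, (1 : ℝ) / j - 2 * B := by
    rw [hB, Finset.mul_sum, Finset.mul_sum, ← Finset.sum_sub_distrib]
    refine Finset.sum_congr rfl fun n _ => ?_
    simp only [hbdef]; ring
  have e2 : ∑ j ∈ Icc 1 X, (1 : ℝ) / j ≤ ∑ j ∈ Icc 1 X, b (2 * j + r) / j +
      ∑ i, ∑ j ∈ Icc 1 X, b (4 * j + (2 * r + h i)) / j := by
    rw [Finset.sum_comm, ← Finset.sum_add_distrib]
    refine Finset.sum_le_sum fun j hj => ?_
    rw [← Finset.sum_div, ← add_div]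
    exact div_le_div_of_nonneg_right (hr j (Finset.mem_Icc.mp hj).1) (Nat.cast_nonneg _)
  have e3 := transfer b hb 2 r X (by norm_num) hX
  have e4 : ∑ n ∈ Icc 1 X, (if n % 2 = r % 2 then b n / n else 0) ≤ B :=
    Finset.sum_le_sum fun n _ => by split_ifs; exacts [le_rfl, hbn n]
  have e5 := Finset.sum_le_sum fun i (_ : i ∈ (univ : Finset (Fin k))) =>
    transfer b hb 4 (2 * r + h i) X (by norm_num) hX
  have e6 : ∑ i, ∑ n ∈ Icc 1 X, (if n % 4 = (2 * r + h i) % 4 then b n / n else 0) ≤ m * B := by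
    rw [Finset.sum_comm, hB, Finset.mul_sum]
    refine Finset.sum_le_sum fun n _ => ?_
    rw [← Finset.sum_filter, Finset.sum_const, nsmul_eq_mul]
    refine mul_le_mul_of_nonneg_right ?_ (hbn n)
    have := hm ((n + 2 * r) % 4)
    refine Nat.cast_le.mpr (le_trans (Finset.card_le_card fun i hi => ?_) this)
    simp only [Finset.mem_filter, Finset.mem_univ, true_and] at hi ⊢
    omega
  rw [Finset.sum_add_distrib, ← Finset.mul_sum] at e5
  have e7 : Real.log X ≤ 2 * B * (2 * m + 1) + K := by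
    rw [hK]; push_cast at e3 e5 ⊢; nlinarith
  have hp : (0 : ℝ) < 2 * m + 1 := by positivity
  have e8 : Real.log X / (2 * m + 1) ≤ 2 * B + K / (2 * m + 1) := by
    rw [div_le_iff₀ hp, add_mul, div_mul_cancel₀ _ hp.ne']; exact e7
  rw [e1, sub_mul, one_mul, one_div, inv_mul_eq_div]
  linarith

/-- Explicit cancellation in the twisted Liouville correlations, uniform in the shifts. -/
theorem result (k : ℕ) (h : Fin k → ℕ) (m : ℕ)
    (hm : ∀ j : ℕ, (Finset.univ.filter fun i : Fin k => h i % 4 = j).card ≤ m) :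
    ∃ C : ℝ, ∀ X : ℕ, 1 ≤ X →
      |∑ n ∈ Finset.Icc 1 X, (-1 : ℝ) ^ (n - 1) *
          (∏ i : Fin k, (-1 : ℝ) ^ (ArithmeticFunction.cardFactors (n + h i))) / (n : ℝ)|
        ≤ (1 - 1 / (2 * (m : ℝ) + 1)) * Real.log (X : ℝ) + C := by
  obtain ⟨C1, h1⟩ := main h m hm 1 (Or.inl rfl)
  obtain ⟨C2, h2⟩ := main h m hm (-1) (Or.inr rfl)
  refine ⟨max C1 C2, fun X hX => ?_⟩
  have a1 := h1 X hX
  have a2 := h2 X hX
  have m1 := le_max_left C1 C2
  have m2 := le_max_right C1 C2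
  simp only [Y, L] at a1 a2
  rw [abs_le]
  constructor <;> linarith

end Pool.Agent.Results.MP_a4a062_nt.TwistBound
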